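import Pool.Agent.W229.HD.Final

/-!
Global regularity of the three-dimensional Navier-Stokes equations decimated to helical Fourier modes,
up to and including the critical line `D₊ + D₋ = 5`.

Every real divergence-free field on the torus is the sum of its helical modes (Waleffe): at the
frequency `k` the part of positive sign satisfies `curl = |k|`, the part of negative sign
`curl = -|k|`.  The decimated equations keep the modes in given sets `Λ₊` and `Λ₋` and project
the equations (with `ν (-Δ)^α`, `α = 1` is the Navier-Stokes case) onto them.  Biferale and Titi (2013)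
proved global regularity for `Λ₋ = ∅`: the `H^(1/2)` norm is the helicity.  Here:

(1) if every mode `p` of `Λ₊ ∪ Λ₋` belongs to at most `A |p|²` heterochiral triads (triads with
modes of both signs) of size `≤ |p|` then the equations are globally regular, whatever the
homochiral triads are;
(2) this is so if `Λ₋` (or `Λ₊`) is a two-dimensional set of frequencies, the other set arbitrary;
(3) it is so almost surely if the modes of sign `±` are kept independently with probability at most
`|k|^(D± - 3)` and `D₊ + D₋ ≤ 5`; with `(-Δ)^α`, `1 ≤ α ≤ 5/4`, if `D₊ + D₋ ≤ 4 α + 1` (at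
`α = 5/4` all the modes may be kept, Lions).

The proof: in the balance of the `H^(1/2)` norm homochiral triads do not contribute, and a
heterochiral triad contributes with its smallest length instead of the largest one, since its two long
legs have opposite signs or its coupling is small.
-/

set_option autoImplicit false

open MeasureTheory Set

namespace Pool.Agent.Results.MP_6bf1e5_an.CriticalHelicalModes

open Pool.Agent.W229.HD

theorem result :
    (∀ (α A : ℝ) (Λ : Bool → Set K3), 1 ≤ α → 0 ≤ A → Modes Λ → Sparse α Λ A → GlobReg α Λ) ∧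
    (∀ (α A : ℝ) (Λ : Bool → Set K3) (s : Bool), 1 ≤ α → 0 ≤ A → Modes Λ →
      (∀ (R : ℝ) (F : Finset K3), 1 ≤ R → (∀ k ∈ F, k ∈ Λ s ∧ nm k ≤ R) →
        (F.card : ℝ) ≤ A * R ^ (2 * α)) → GlobReg α Λ) ∧
    (∀ α : ℝ, 1 ≤ α → α ≤ 5 / 4 → ∀ D : Bool → ℝ, (∀ s, D s ≤ 3) →
      D true + D false ≤ 4 * α + 1 →
      ∀ (Ω : Type) [MeasurableSpace Ω] (P : Measure Ω) [IsProbabilityMeasure P]
        (X : Bool → K3 → Set Ω), (∀ s k, MeasurableSet (X s k)) → (∀ s k, X s (-k) = X s k) →
        (∀ s, X s 0 = ∅) →
        (∀ J : Finset (Bool × K3), (∀ j ∈ J, (j.1, -j.2) ∉ J) →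
          P (⋂ j ∈ J, X j.1 j.2) = ∏ j ∈ J, P (X j.1 j.2)) →
        (∀ s k, k ≠ 0 → P (X s k) ≤ ENNReal.ofReal (nm k ^ (D s - 3))) →
        ∀ᵐ ω ∂P, GlobReg α fun s => {k | ω ∈ X s k}) ∧
    (∀ k : K3, k ≠ 0 → ∀ v : E3,
      dec (fun _ => {k | k ≠ 0}) k v = v - (dt (kc k) v / ((nm k ^ 2 : ℝ) : ℂ)) • kc k) :=
  final

end Pool.Agent.Results.MP_6bf1e5_an.CriticalHelicalModes
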