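import Pool.Agent.W268.Dy.Fin3
import Pool.Agent.W268.Dy.BlowB
import Pool.Agent.W500.DyB.E
import Pool.Agent.W349.DyB.X
import Pool.Agent.W349.DyB.O

/-!
Global regularity and blow-up for the dyadic models of the Navier-Stokes equations.

The nodes of the `K`-ary tree are the words over `Fin K` (`[]` is the root, `c :: w` are the
children of `w`), a node of generation `n` stands for a wavelet coefficient of frequency `2^n`. The
equations are

`X_w' = - ν μ^|w| X_w + q^|w| X_(parent of w)^2 - q^(|w|+1) X_w ∑_c X_(c :: w)`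

(no gain at the root). With `q = 2^α` and `μ = 4^a` this is the model of Katz and Pavlovic with the
dissipation `(-Δ)^a`. For `K = 1` and `μ = 4` it is the classical chain
`X_n' = - ν 4^n X_n + q^n X_(n-1)^2 - q^(n+1) X_n X_(n+1)`, `q = 2^α`.

The proof is in the folder `Pool.Agent.W268.Dy`. Regularity: an invariant polygon for the rescaled
pairs (parent, child) gives bounds for the Galerkin solutions which are better than critical
(`Inv`, `Cert`, `Reg`, `Pert`); a parabolic bootstrap gives all powers. Blow-up: a Lyapunov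
functional as in Katz-Pavlovic and Cheskidov (`BlowA`, `BlowB`).
-/

open Finset Pool.Agent.W268.Dy

set_option autoImplicit false

/-- Let `K ≥ 1`, `ν > 0`, `q > 0`, `μ > 1`.

1. Let `μ ≥ 4`, `q² ≤ K μ³`, or `q² < K μ³`, `10 q² ≤ K μ⁴`. Every nonnegative rapidly decreasing
`u` is the initial value of a solution all whose weighted norms are bounded on `[0, ∞)`; it is the
only nonnegative solution of finite energy.
2. If in addition `q < 2 μ` and `q² < μ³`, every nonnegative `u` of finite energy is the initial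
value of exactly one nonnegative solution of finite energy, and its weighted norms are bounded on
`[t0, ∞)` for every `t0 > 0`.
3. If `q² > K μ³`, then for every `T > 0` there is a nonnegative `u` supported at the root which is
not the initial value of a nonnegative solution on `[0, T]` with bounded weighted norms.

So for `μ ≥ 4` all nonnegative rapidly decreasing data have global regular solutions if and only if
`q² ≤ K μ³`. -/
theorem Pool.Agent.Results.MP_6bf1e5_an.DyadicRegularity.result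
    (K : ℕ) (ν q μ : ℝ) (hK : 0 < K) (hν : 0 < ν) (hq : 0 < q) (hμ : 1 < μ) :
    ((4 ≤ μ ∧ q ^ 2 ≤ K * μ ^ 3) ∨ (q ^ 2 < K * μ ^ 3 ∧ 10 * q ^ 2 ≤ K * μ ^ 4) →
      (∀ u : Node K → ℝ, (∀ w, 0 ≤ u w) →
        (∀ m : ℕ, ∃ C : ℝ, ∀ w, 2 ^ (m * w.length) * u w ≤ C) →
        ∃ X : ℝ → Node K → ℝ, IsSol ν μ q X ∧ X 0 = u ∧
          (∀ m : ℕ, ∃ C : ℝ, ∀ t, 0 ≤ t → ∀ w, 2 ^ (m * w.length) * X t w ≤ C) ∧
          ∀ Y : ℝ → Node K → ℝ, IsSol ν μ q Y → Y 0 = u → ∀ t, 0 ≤ t → Y t = X t) ∧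
      (q < 2 * μ → q ^ 2 < μ ^ 3 →
        ∀ u : Node K → ℝ, (∀ w, 0 ≤ u w) →
        (∃ E : ℝ, ∀ N, ∑ n ∈ range N, gsum n (fun w => u w ^ 2) ≤ E) →
        ∃ X : ℝ → Node K → ℝ, IsSol ν μ q X ∧ X 0 = u ∧
          (∀ t0, 0 < t0 → ∀ m : ℕ, ∃ C : ℝ, ∀ t, t0 ≤ t → ∀ w,
            2 ^ (m * w.length) * X t w ≤ C) ∧
          ∀ Y : ℝ → Node K → ℝ, IsSol ν μ q Y → Y 0 = u → ∀ t, 0 ≤ t → Y t = X t)) ∧
    (K * μ ^ 3 < q ^ 2 → ∀ T : ℝ, 0 < T →
      ∃ u : Node K → ℝ, (∀ w, 0 ≤ u w) ∧ (∀ w, w ≠ [] → u w = 0) ∧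
        ¬ ∃ X : ℝ → Node K → ℝ, X 0 = u ∧
          (∀ t ∈ Set.Icc 0 T, ∀ w, 0 ≤ X t w) ∧
          (∀ w, ContinuousOn (fun t => X t w) (Set.Icc 0 T)) ∧
          (∀ w, ∀ t ∈ Set.Ioo 0 T, HasDerivAt (fun s => X s w) (rhs ν μ q (X t) w) t) ∧
          (∀ m : ℕ, ∃ C : ℝ, ∀ t ∈ Set.Icc 0 T, ∀ w, 2 ^ (m * w.length) * X t w ≤ C)) := by
  refine ⟨fun hA => ⟨?_, ?_⟩, ?_⟩
  · intro u hu hR
    exact part_one hK hν hq hμ hA hu hR
  · rintro hq1 hq2 u hu ⟨E, hE⟩
    exact part_two hK hν hq hμ hA hq1 hq2 hu hE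
  · intro hh T hT
    obtain ⟨u, hu, hu0, hno⟩ := blow Pool.Agent.W500.DyB.E.main Pool.Agent.W349.DyB.X.main
      Pool.Agent.W349.DyB.O.main hK hν hμ hq hh hT
    refine ⟨u, hu, hu0, ?_⟩
    rintro ⟨X, hX0, h1, h2, h3, h4⟩
    refine hno ⟨X, ⟨fun t ht htT w => h1 t ⟨ht, htT⟩ w, h2, fun w t ht htT => h3 w t ⟨ht, htT⟩,
      fun m => ?_⟩, hX0⟩
    obtain ⟨C, hC⟩ := h4 m
    exact ⟨C, fun t ht htT w => hC t ⟨ht, htT⟩ w⟩
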