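import Pool.Agent.W795.TQ.PFin
import Pool.Agent.W12.TQ.Iter
import Pool.Agent.W636.TQ.Leray
import Pool.Agent.W978.TQ.Cross
import Pool.Agent.W806.TQ.Bd
import Pool.Agent.W185.TQ.Mean

/-!
The critical modulus of continuity in time, with values in `L²`, at a singular time of a smooth
periodic solution of the Navier-Stokes equations.
-/

open MeasureTheory Set H459R3.NS

namespace Pool.Agent.Results.MP_6bf1e5_an.HoelderQuarter

/-- There is an absolute constant `k > 0` such that a smooth periodic solution of the Navier-Stokes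
equations on `[0, T)` with viscosity `ν` which approaches some field `U ∈ L²` so fast that
`∫_{T-h}^T ‖u(t) - U‖² dt ≤ k ν^{5/2} h^{3/2}` for all small `h` stays bounded up to the time `T`. -/
theorem result :
    ∃ k : ℝ, 0 < k ∧ ∀ (ν T : ℝ) (u : ℝ → V → V) (p : ℝ → V → ℝ) (U : V → V) (h0 : ℝ), 0 < ν →
      IsSol ν T u p → (∀ i, MemLp (fun x => U x i) 2 (volume.restrict cube)) → 0 < h0 → h0 ≤ T →
      (∀ h : ℝ, 0 < h → h ≤ h0 →
        ∫ t in (T - h)..T, energy (fun x => u t x - U x) ≤ k * ν ^ (5 / 2 : ℝ) * h ^ (3 / 2 : ℝ)) →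
      ∃ M, ∀ t ∈ Ico 0 T, ∀ x i, |u t x i| ≤ M :=
  Pool.Agent.W795.TQ.crit Pool.Agent.W12.TQ.proof Pool.Agent.W806.TQ.proof
    Pool.Agent.W978.TQ.proof Pool.Agent.W185.TQ.proof_mean Pool.Agent.W636.TQ.proof
    Pool.Agent.W185.TQ.proof_scale

end Pool.Agent.Results.MP_6bf1e5_an.HoelderQuarter
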