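import Pool.Agent.W221.NS.Asm3
import Pool.Agent.W221.NS.Fin4

/-!
The singular set of a solution of the Navier-Stokes equations at its first blow-up time has
one-dimensional upper Minkowski content zero: periodic solutions, solutions in the whole space and,
locally, solutions in an open set, with a force.

`V = Fin 3 → ℝ` with the maximum norm. See the claim file for the definitions.
-/

open MeasureTheory Set Metric Filter Topology
open scoped ContDiff ENNReal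

namespace Pool.Agent.Results.MP_6bf1e5_an.MinkowskiContent

open H459R3.NS W221.NS

theorem result : ∃ C : ℝ, 0 < C ∧
    -- periodic solutions
    (∀ (ν T F : ℝ) (u : ℝ → V → V) (p : ℝ → V → ℝ) (f : ℝ → V → V), 0 < ν → 0 < T →
      IsSolF ν T F u p f →
      (∃ r₀ : ℝ, 0 < r₀ ∧ ∀ r : ℝ, 0 < r → r < r₀ → ∀ S : Finset V,
        (∀ x ∈ S, x ∈ cube ∧ Sing T u x) → (∀ x ∈ S, ∀ y ∈ S, x ≠ y → r ≤ ‖x - y‖) →
          S.card * r ≤ C / ν * ∫ t in Ioo (T - 32 * r ^ 2 / ν) T, enstrophy (u t)) ∧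
      Tendsto (fun r : ℝ => volume (thickening r {x ∈ cube | Sing T u x})
        / ENNReal.ofReal (r ^ 2)) (𝓝[>] 0) (𝓝 0) ∧
      ∀ M : ℝ, 0 ≤ M → (∃ᶠ h in 𝓝[>] (0 : ℝ), ∫ t in Ioo (T - h) T, enstrophy (u t) ≤ M * √h) →
        ∀ S : Finset V, (∀ x ∈ S, x ∈ cube ∧ Sing T u x) →
          (S.card : ℝ) ≤ C * M / (ν * √ν)) ∧
    -- solutions in an open set, or in the whole space
    ∀ (ν T E F : ℝ) (Ω K : Set V) (u : ℝ → V → V) (p : ℝ → V → ℝ) (f : ℝ → V → V), 0 < ν →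
      0 < T → OSolF ν T E F Ω u p f → IsCompact K ∧ K ⊆ Ω ∨ Ω = univ ∧ K = univ →
      (∃ r₀ : ℝ, 0 < r₀ ∧ ∀ r : ℝ, 0 < r → r < r₀ → ∀ S : Finset V,
        (∀ x ∈ S, x ∈ K ∧ Sing T u x) → (∀ x ∈ S, ∀ y ∈ S, x ≠ y → r ≤ ‖x - y‖) →
          ENNReal.ofReal (S.card * r) ≤ ENNReal.ofReal (C / ν) *
            ∫⁻ t in Ioo (T - 32 * r ^ 2 / ν) T, ∫⁻ y in Ω, ENNReal.ofReal (gsq (u t) y)) ∧
      (∫⁻ t in Ioo 0 T, ∫⁻ y in Ω, ENNReal.ofReal (gsq (u t) y) ≠ ⊤ →
        Tendsto (fun r : ℝ => volume (thickening r {x ∈ K | Sing T u x})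
          / ENNReal.ofReal (r ^ 2)) (𝓝[>] 0) (𝓝 0)) ∧
      ∀ M : ℝ, 0 ≤ M → (∃ᶠ h in 𝓝[>] (0 : ℝ), ∫⁻ t in Ioo (T - h) T,
          ∫⁻ y in Ω, ENNReal.ofReal (gsq (u t) y) ≤ ENNReal.ofReal (M * √h)) →
        ∀ S : Finset V, (∀ x ∈ S, x ∈ Ω ∧ Sing T u x) → (S.card : ℝ) ≤ C * M / (ν * √ν) := by
  obtain ⟨C₁, hC₁, H₁⟩ := peri_final3 B.p_omega3 B.p_osc3 B.p_pen3 B.p_pero B.p_mink
  obtain ⟨C₂, hC₂, H₂⟩ := whole_final3 B.p_whole3 B.p_osc3 B.p_mink
  obtain ⟨C₃, hC₃, H₃⟩ := omega_final3 B.p_omega3 B.p_osc3 B.p_mink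
  set C := max C₁ (max C₂ C₃) with hC
  have hle1 : C₁ ≤ C := le_max_left _ _
  have hle2 : C₂ ≤ C := (le_max_left _ _).trans (le_max_right _ _)
  have hle3 : C₃ ≤ C := (le_max_right _ _).trans (le_max_right _ _)
  refine ⟨C, hC₁.trans_le hle1, ?_, ?_⟩
  · intro ν T F u p f hν hT hu
    obtain ⟨⟨ρ, hρ, ha⟩, hb, hc⟩ := H₁ ν T F u p f hν hT hu
    refine ⟨⟨ρ, hρ, fun r hr hrr S hS hsep => ?_⟩, hb, fun M hM hfr S hS => ?_⟩
    · refine (ha r hr hrr S hS hsep).trans ?_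
      have h6 : 0 ≤ ∫ t in Ioo (T - 32 * r ^ 2 / ν) T, enstrophy (u t) :=
        integral_nonneg fun t => W221.NS.enstrophy_nonneg _
      gcongr
    · refine (hc M hM hfr S hS).trans ?_
      gcongr
  · intro ν T E F Ω K u p f hν hT hu hK
    rcases hK with ⟨hKc, hKΩ⟩ | ⟨rfl, rfl⟩
    · obtain ⟨⟨ρ, hρ, ha⟩, hb, hc⟩ := H₃ ν T E F Ω u p f hν hT hu K hKc hKΩ
      refine ⟨⟨ρ, hρ, fun r hr hrr S hS hsep => ?_⟩, hb, fun M hM hfr S hS => ?_⟩
      · refine (ha r hr hrr S hS hsep).trans (mul_le_mul_left (ENNReal.ofReal_le_ofReal ?_) _)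
        gcongr
      · refine (hc M hM hfr S hS).trans ?_
        gcongr
    · have hu' : OSolF ν T E |F| univ u p f :=
        { hu with force := fun t ht => bd3_mono (le_abs_self F) (hu.force t ht) }
      obtain ⟨ha, hb, hc⟩ := H₂ ν T E |F| u p f hν hT (abs_nonneg F) hu'
      simp only [Measure.restrict_univ, mem_univ, true_and]
      refine ⟨?_, hb, fun M hM hfr S hS => ?_⟩
      · have c1 : ∀ᶠ r : ℝ in 𝓝 0, C₂ * r < 1 := by
          have : Continuous fun r : ℝ => C₂ * r := by fun_prop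
          have := this.tendsto 0
          rw [mul_zero] at this
          exact this.eventually (gt_mem_nhds one_pos)
        have c2 : ∀ᶠ r : ℝ in 𝓝 0, C₂ * |F| * r ^ 3 < ν ^ 2 := by
          have : Continuous fun r : ℝ => C₂ * |F| * r ^ 3 := by fun_prop
          have := this.tendsto 0
          simp only [ne_eq, OfNat.ofNat_ne_zero, not_false_eq_true, zero_pow, mul_zero] at this
          exact this.eventually (gt_mem_nhds (by positivity))
        have c3 : ∀ᶠ r : ℝ in 𝓝 0, 32 * r ^ 2 / ν < T := by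
          have : Continuous fun r : ℝ => 32 * r ^ 2 / ν := by fun_prop
          have := this.tendsto 0
          simp only [ne_eq, OfNat.ofNat_ne_zero, not_false_eq_true, zero_pow, mul_zero,
            zero_div] at this
          exact this.eventually (gt_mem_nhds hT)
        obtain ⟨ρ, hρ, h⟩ := Metric.eventually_nhds_iff.1 (c1.and (c2.and c3))
        refine ⟨ρ, hρ, fun r hr hrr S hS hsep => ?_⟩
        obtain ⟨a1, a2, a3⟩ := h (show dist r 0 < ρ by
          rw [Real.dist_eq, sub_zero, abs_of_pos hr]; exact hrr)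
        refine (ha r hr a1.le a2.le a3 S hS hsep).trans
          (mul_le_mul_left (ENNReal.ofReal_le_ofReal ?_) _)
        gcongr
      · refine (hc M hM hfr S hS).trans ?_
        gcongr

end Pool.Agent.Results.MP_6bf1e5_an.MinkowskiContent
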