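import Pool.Agent.W786.Tb4

/-!
# Constantin-Fefferman and Giga-Miura criteria at one point of maximal vorticity

A smooth periodic solution of the Navier-Stokes equations does not blow up at time `T` if, at almost
every time `t` at which the maximum of the vorticity `ω` exceeds all its earlier values (and a
number `Λ`), there is one point `x` where `|ω(t, ·)|` is maximal such that with `w = ω(t, x)`
`(y · w) det (ω(t, x + y), w, y)
  ≤ |y|² |w|² (g(t) + K |y| (1 - log |y|) |∇u(t, x + y)| + h(t) (|y| / r(t)) ^ α)`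
for all `y` with `|y| < r(t) = (1 + ‖∇u(t)‖² / ν² + (g(t) + h(t)) / ν) ^ (-2/5)`, where `g` is
integrable, `K` is constant, `α > 0` and `h(t) = κ / (T - t)` with `κ` small.

* For instance (`κ = 0`), it is enough that the sine of the angle between `ω(t, x)` and `ω(t, x + y)`
  is at most `K |y|` for those `y` for which `|ω(t, x + y)| > g(t)`; the theorem of Constantin and
  Fefferman assumes this, with constant `g`, for all pairs of points with `|ω| > g`. The case
  `g = max |ω|` is the criterion of Beale, Kato and Majda.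
* If `|ω| ≤ C₁ / (T - t)` (Type I), it is enough that this sine is at most `H |y| ^ α`, with any
  `α > 0` and `H`, as `h(t) (|y| / r(t)) ^ α ≥ C₁ H |y| ^ α / (T - t)` for `t` near `T`; the theorem
  of Giga and Miura assumes the uniform continuity of the direction. More generally this holds if
  `|ω| ≤ c (T - t) ^ (-1 - 2 α / 5)` with `c` small.

Proof: with `e = w / |w|` and the averages `A(s) = ∫ (1 - |z|²)₊³ (e · ∂ₑu)(x + s z) dz` one has
`s A'(s) = 6 ∫ (e · z) (1 - |z|²)₊² ω(x + s z) · (z × e) dz`, so that the hypothesis bounds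
`-A'(s)` by `(g + h (s / r) ^ α) / s` and the average of `|∇u|`, which is bounded in terms of `‖∇u‖`
and `‖∇²u‖` in `L²`; at the largest radius `A` is bounded by the energy, and at radii smaller than
`δ = (1 + ‖Δu‖² / ν²)⁻² / 4` its variation is bounded by `‖∇²u‖` and `‖∇³u‖`. So the stretching rate
`e · ∂ₑu(x)` is at most `f(t) X(t) + m / (2 (T - t))`, where `X = 1 + log (sup |ω| / ν)` and `f` is
integrable by the energy equality, `∫ ‖Δu‖² / (1 + ‖∇u‖²)² dt < ∞`,
`∫ ‖∇Δu‖² / (1 + ‖Δu‖²)² dt < ∞`, and as `‖Δu(t)‖` is bounded by a power of the maximum of `|ω|` up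
to time `t`. At a point of maximal vorticity `|ω|²` grows at most at the stretching rate; hence
`X' ≤ f X + m / (2 (T - t))`, and `sup |ω|` is at most a constant times `(T - t) ^ (-3/4)`.
-/

open MeasureTheory Set
open scoped ENNReal Topology

namespace Pool.Agent.Results.MP_6bf1e5_an.OnePointTwist

open Pool.Agent.H708R2.EulerSign Pool.Agent.H708R2.EulerTypeI Pool.Agent.W786.Max
  Pool.Agent.W786.St
open H459R3.NS (IsSol energy enstrophy palin)

/-- There is an absolute constant `C` such that for every smooth periodic solution `(u, p)` of the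
Navier-Stokes equations on `[0, T)`, if `m = C κ (1 / α + ‖u(0)‖ / ν) ≤ 1`: if for almost every `t`
there is a point `x` of maximal vorticity near which, if the vorticity there is larger than `Λ` and
than all values of the vorticity at earlier times, the twist of the vorticity is bounded as stated,
then the velocity is bounded, and the vorticity has the stated bound. -/
theorem result :
    ∃ C : ℝ, 0 ≤ C ∧ ∀ (ν T K Λ α κ m : ℝ) (u : ℝ → V → V) (p : ℝ → V → ℝ) (g : ℝ → ℝ),
    0 < ν → 0 ≤ K → 0 < α → 0 ≤ κ → m = C * κ * (1 / α + Real.sqrt (energy (u 0)) / ν) →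
    m ≤ 1 → IsSol ν T u p → (∀ᵐ t, t ∈ Ioo 0 T → 0 ≤ g t) → IntegrableOn g (Ioo 0 T) →
    (∀ᵐ t, t ∈ Ioo 0 T → ∃ x, IsMaxPt u t x ∧ (Λ < nrm (vort (u t) x) →
      (∀ s ∈ Ico 0 t, ∀ y, nrm (vort (u s) y) < nrm (vort (u t) x)) →
      TwistLeH (u t) x K (g t) (κ / (T - t)) α
        ((1 + enstrophy (u t) / ν ^ 2 + (g t + κ / (T - t)) / ν) ^ (-(2 / 5) : ℝ)))) →
    (∃ B, ∀ t ∈ Ico 0 T, ∀ x i, |u t x i| ≤ B) ∧
    ∀ A S, ν ≤ A → Λ ≤ A → (∀ x, nrm (vort (u 0) x) ≤ A) → energy (u 0) ≤ A ^ 2 →
      palin (u 0) ≤ A ^ 2 → S = 1 + ν * T + energy (u 0) / ν ^ 2 + ∫ s in Ioo 0 T, g s →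
      ∀ t ∈ Ico 0 T, ∀ x, nrm (vort (u t) x)
        ≤ ν * Real.exp ((1 + Real.log (A / ν) + m * Real.log (T / (T - t)))
          * Real.exp (C * S * (K + S)) - 1) :=
  final'

end Pool.Agent.Results.MP_6bf1e5_an.OnePointTwist
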