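import Pool.Agent.W268.NS.Fin

/-!
A two-point regularity criterion for the three-dimensional Navier-Stokes equations on the torus:
points with the same velocity.

Let `D = det ∇u`. Since the velocity is a map from the torus to `ℝ³`, the integral of `K(u) D`
vanishes for every Borel function `K` of the velocity (`int_moder` in `Pool.Agent.W268.NS.Moder`),
so that the production of enstrophy is the integral of `ω · (ω · ∇) u - K(u) D` for every `K`. The
best choice of `K` (at each time) gives a criterion in which `K` does not appear: only pairs of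
points with the same velocity and opposite signs of `D` are compared (`two_point` in
`Pool.Agent.W268.NS.TwoPt`). The hypothesis does not change if a multiple of `D` is added to the
stretching rate, so that it makes no difference whether one starts from the stretching rate
`ω · (ω · ∇) u` or from the strain self-amplification `-4 det S = ω · (ω · ∇) u - 4 D`.
-/

open MeasureTheory Set H459R3.NS Pool.Agent.W268.NS
open scoped ENNReal

set_option autoImplicit false

/-- Let `3/2 < p ≤ ∞`, `3/p + 2/q = 2`, `3 < s ≤ ∞`, `3/s + 2/r = 1`, `ν > 0` and `κ < 1`. There is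
a constant `C` such that every smooth `1`-periodic solution `(u, P)` of the Navier-Stokes equations
with viscosity `ν` on `[0, T) × ℝ³` satisfies
`‖∇u(t)‖² ≤ ‖∇u(0)‖² exp (C ∫ (β^q + γ^r))` and is bounded, provided that for every `t ∈ (0, T)`
there are
* a function `f` with `L^p` norm at most `β t`, a matrix `Θ`,
* smooth periodic vector fields `W_{abcd}` with `L^s` norms at most `γ t`
such that, outside a set `Z` of measure zero, the excess
`h = ω · (ω · ∇) u - f |∇u|² - κ ν |Δu|² - Θ : adj ∇u - ∑ (div W_{abcd}) ∂ₐ u_b ∂_c u_d`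
satisfies
* `h ≤ 0` where `det ∇u = 0`,
* `h(x) / det ∇u(x) ≤ h(y) / det ∇u(y)` whenever `u(x) = u(y)`, `det ∇u(x) > 0 > det ∇u(y)`. -/
theorem Pool.Agent.Results.MP_6bf1e5_an.VelocityPairs.result
    {p s : ℝ≥0∞} (hp : 3 / 2 < p) (hs : 3 < s) {q r : ℝ}
    (hpq : 3 * (p⁻¹).toReal + 2 / q = 2) (hsr : 3 * (s⁻¹).toReal + 2 / r = 1)
    {ν κ : ℝ} (hν : 0 < ν) (hκ : κ < 1) :
    ∃ C : ℝ, 0 ≤ C ∧ ∀ (T : ℝ) (u : ℝ → V → V) (P : ℝ → V → ℝ) (β γ : ℝ → ℝ), IsSol ν T u P →
      (∀ t ∈ Ioo 0 T, 0 ≤ β t ∧ 0 ≤ γ t) → IntegrableOn (fun t => β t ^ q) (Ioo 0 T) →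
      IntegrableOn (fun t => γ t ^ r) (Ioo 0 T) →
      (∀ t ∈ Ioo 0 T, ∃ (f : V → ℝ) (Θ : Matrix (Fin 3) (Fin 3) ℝ)
        (W : Fin 3 → Fin 3 → Fin 3 → Fin 3 → V → V) (Z : Set V),
        AEStronglyMeasurable f (volume.restrict cube) ∧
        eLpNorm f p (volume.restrict cube) ≤ ENNReal.ofReal (β t) ∧
        (∀ a b c d, SPV (W a b c d)) ∧
        (∀ a b c d e, eLpNorm (fun x => W a b c d x e) s (volume.restrict cube)
          ≤ ENNReal.ofReal (γ t)) ∧
        volume Z = 0 ∧
        (∀ x ∈ cube \ Z, (gradM (u t) x).det = 0 → excess κ ν f Θ W (u t) x ≤ 0) ∧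
        (∀ x ∈ cube \ Z, ∀ y ∈ cube \ Z, u t x = u t y → 0 < (gradM (u t) x).det →
          (gradM (u t) y).det < 0 → excess κ ν f Θ W (u t) x / (gradM (u t) x).det
            ≤ excess κ ν f Θ W (u t) y / (gradM (u t) y).det)) →
      (∀ t ∈ Ico 0 T, enstrophy (u t) ≤ enstrophy (u 0) * Real.exp
        (C * ((∫ τ in Ioo 0 T, β τ ^ q) + ∫ τ in Ioo 0 T, γ τ ^ r))) ∧
      ∃ M, ∀ t ∈ Ico 0 T, ∀ x i, |u t x i| ≤ M :=
  criterion hp hs hpq hsr hν hκ
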