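import Pool.Agent.W909.NS.Fin4

/-!
# Blow-up of the Navier-Stokes equations: the heat flow of the velocity, and the number of modes

Let `u` be a smooth periodic solution on `[0, T) × ℝ³` (viscosity `ν`, period `1`, no force) which is
not bounded, that is, `T` is a blow-up time. Write `|û(t,k)|` for the Euclidean norm of the Fourier
coefficient of the velocity. Then for EVERY `t < T`

  `∫ₜᵀ (∑_{k ≠ 0} exp(-4 π² ν |k|² (s - t)) |û(t,k)|)² ds ≥ 2 ν`,

hence (integrate)

  `∑_{k, l ≠ 0} |û(t,k)| |û(t,l)| / (|k|² + |l|²) ≥ 8 π² ν²`,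

a critical quantity comparable with the square of the norm of `FB^{-1}_{1,2}`, the largest space of the
scale `FB^{-1}_{1,r}` in which the equations are well posed: the reverse inequality for the initial
velocity is an explicit smallness condition for global regularity. Further consequences are

  `1 ≤ ∑_{k ≠ 0} |û(t,k)| min ( ((T - t) / (2 ν))^{1/2}, 1 / (4 π ν |k|) )`,

where low frequencies are measured in the subcritical norm `∑ |û|` and high frequencies in the critical
norm `∑ |û| / |k|` (all high: global regularity for `∑ |û| / |k| < 4 π ν`, the smallness condition of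
Lei and Lin with twice the constant; all low: a lower bound of Leray type), and a bound for the number
of active modes: a finite set `F` of Fourier modes which at time `t` represents the velocity up to an
error `c < 4 π ν` in the critical norm has at least `2 ν (1 - c / (4 π ν))² / (‖u(t)‖² (T - t))`
elements, `‖u(t)‖²` the energy.
-/

set_option autoImplicit false

open MeasureTheory Set H459R3.NS

namespace Pool.Agent.Results.MP_6bf1e5_an.ZActiveModes

/-- `|k|`, the Euclidean norm of the frequency `k ∈ ℤ³`. -/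
noncomputable def absK (k : K3) : ℝ := Real.sqrt (∑ j, (k j : ℝ) ^ 2)

/-- `|v̂(k)|`, the Euclidean norm in `ℂ³` of the Fourier coefficient `∫ v(x) exp(-2 π i k·x) dx` (over
the period cell) of the vector field `v`. -/
noncomputable def amp (v : V → V) (k : K3) : ℝ := Real.sqrt (∑ i, ‖fr (fun x => v x i) k‖ ^ 2)

/-- Let `(u, p)` be a smooth periodic solution of the Navier-Stokes equations on `[0, T) × ℝ³` such
that `u` is not bounded there. Then for every `t ∈ [0, T)`:
(0) the sum of all `|û(t,k)|` is finite;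
(1) `2 ν ≤ ∫ₜᵀ (∑_{k ≠ 0} exp(-4 π² ν |k|² (s - t)) |û(t,k)|)² ds`;
(2) the series `∑_{k, l ≠ 0} |û(t,k)| |û(t,l)| / (|k|² + |l|²)` is finite and at least `8 π² ν²`;
(3) `1 ≤ ∑_{k ≠ 0} |û(t,k)| min ( ((T - t) / (2 ν))^{1/2}, 1 / (4 π ν |k|) )`;
(4) every finite set `F` of frequencies with `∑_{k ∉ F, k ≠ 0} |û(t,k)| / |k| ≤ c < 4 π ν` satisfies
`2 ν (1 - c / (4 π ν))² ≤ |F| ‖u(t)‖² (T - t)`. -/
theorem result {ν T : ℝ} (hν : 0 < ν) {u : ℝ → V → V} {p : ℝ → V → ℝ} (h : IsSol ν T u p)
    (hb : ¬ ∃ M, ∀ t ∈ Ico 0 T, ∀ x i, |u t x i| ≤ M) {t : ℝ} (ht : t ∈ Ico 0 T) :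
    Summable (amp (u t)) ∧
    (2 * ν ≤ ∫ s in t..T, (∑' k : K3, if k = 0 then 0 else
      Real.exp (-(4 * Real.pi ^ 2 * ν * absK k ^ 2 * (s - t))) * amp (u t) k) ^ 2) ∧
    ((Summable fun q : K3 × K3 => if q.1 = 0 ∨ q.2 = 0 then 0 else
        amp (u t) q.1 * amp (u t) q.2 / (absK q.1 ^ 2 + absK q.2 ^ 2)) ∧
      8 * Real.pi ^ 2 * ν ^ 2 ≤ ∑' q : K3 × K3, if q.1 = 0 ∨ q.2 = 0 then 0 else
        amp (u t) q.1 * amp (u t) q.2 / (absK q.1 ^ 2 + absK q.2 ^ 2)) ∧
    (1 ≤ ∑' k : K3, if k = 0 then 0 else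
      amp (u t) k * min (Real.sqrt ((T - t) / (2 * ν))) (1 / (4 * Real.pi * ν * absK k))) ∧
    ∀ (F : Finset K3) (c : ℝ), (∑' k : K3, if k = 0 ∨ k ∈ F then 0 else amp (u t) k / absK k) ≤ c →
      c < 4 * Real.pi * ν →
      2 * ν * (1 - c / (4 * Real.pi * ν)) ^ 2 ≤ F.card * energy (u t) * (T - t) :=
  ⟨Pool.Agent.W909.NS.summable_amp h ht, Pool.Agent.W909.NS.third h hν hb ht,
    Pool.Agent.W909.NS.fourth h hν hb ht, Pool.Agent.W909.NS.first h hν hb ht,
    fun F _ hc hcK => Pool.Agent.W909.NS.second h hν hb ht F hc hcK⟩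

end Pool.Agent.Results.MP_6bf1e5_an.ZActiveModes
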