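import Pool.Agent.W785.DF.Main2

/-!
# Forces with global smooth solutions are dense along the line `5/q + 2s = 5`

Periodic Navier-Stokes equations in dimension three, any viscosity `ν > 0`, any smooth divergence free
initial velocity `u0` and any force `f` satisfying the condition (P2) of the problem, both of arbitrary
size. There are forces `g` satisfying (P2), as small as we please in `L^q(0, ∞; H^{-s})` at the same
time for any finitely many pairs `(q, s)` with

  `1 ≤ q < ∞`, `5/q + 2 s ≥ 5` and `s > 3/2 - 1/q`

(the second condition follows from the first one if `q > 3/2`), such that the equations with force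
`f + g` and initial velocity `u0` have an admissible periodic solution, smooth on `[0, ∞) × ℝ³`.
So the forces of the scenario (D) of the problem have empty interior in all these topologies,
for every `u0`; for instance in `L^{5/3}(0, ∞; H^{-1})` and in `L²(0, ∞; H^{-5/4})`.

Smoothing a weak solution gives the classical range `4/q + 2 s ≥ 5` (Fursikov): `L^{4/3} H^{-1}` and
`L² H^{-3/2}`. The pairs `4/q + 2 s < 5 ≤ 5/q + 2 s` use the equations: an additional viscosity
`(y / h)^{1/4}`, `y` the enstrophy, at the frequencies `|k|² ≳ y` only, and only while `y > h`, makes the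
enstrophy bounded, and the part of the energy and of the quantity `log (1 + y)` which it dissipates
bounds the norm of the force that replaces it by a negative power of `h`.
-/

set_option autoImplicit false

open MeasureTheory Set
open scoped ContDiff

namespace Pool.Agent.Results.MP_6bf1e5_an.ZDenseForces

open H459R3.NS (V Per pd)
open Pool.Agent.W785.DF (IsForce IsAdmissible sobNorm)

/-- Let `ν > 0`, let `u0` be a smooth periodic divergence free field, `f` a force satisfying (P2) and
`P` a finite set of pairs `(q, s)` with `q ≥ 1`, `s ≥ 5/2 - 5/(2q)` and `s > 3/2 - 1/q`. For every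
`ε > 0` there is a force `g` satisfying (P2) such that `∫_0^∞ ‖g(t)‖_{H^{-s}}^q dt ≤ ε` for all pairs
`(q, s)` of `P`, and the Navier-Stokes equations with initial velocity `u0` and force `f + g` have an
admissible periodic solution. -/
theorem result {ν : ℝ} (hν : 0 < ν) {u0 : V → V} (hu0 : ContDiff ℝ ∞ u0) (hper : Per u0)
    (hdiv : ∀ x, ∑ i, pd i (fun y => u0 y i) x = 0) {f : ℝ → V → V} (hf : IsForce f)
    (P : Finset (ℝ × ℝ))
    (hP : ∀ p ∈ P, 1 ≤ p.1 ∧ 5 / 2 - 5 / (2 * p.1) ≤ p.2 ∧ 3 / 2 - 1 / p.1 < p.2)
    {ε : ℝ} (hε : 0 < ε) :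
    ∃ g : ℝ → V → V, IsForce g ∧
      (∀ p ∈ P, ∫⁻ t in Ioi 0, sobNorm (-p.2) (g t) ^ p.1 ≤ ENNReal.ofReal ε) ∧
      ∃ (u : ℝ → V → V) (p : ℝ → V → ℝ), IsAdmissible ν u0 (fun t x => f t x + g t x) u p :=
  Pool.Agent.W785.DF.dense hν hu0 hper hdiv hf P hP hε

end Pool.Agent.Results.MP_6bf1e5_an.ZDenseForces
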