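import Pool.Agent.W734.NS.Theta

/-!
A regularity criterion of Serrin type for the three-dimensional Navier-Stokes equations on the torus
in which only one fixed finite window of frequencies `2 ^ (θ J) ≤ |k| ≤ 6 * 2 ^ J` is looked at, for
any `θ < 4/5` (the reciprocal of the exponent of Lions).

The scale invariant norm is `L ^ q (0, T; B ^ s_{∞, ∞})` with `2 / q = 1 + s` and `-1 < s < 1`
(for `s = - 3 / p` it is weaker than the norm of Prodi and Serrin, `3 / p + 2 / q = 1`). The threshold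
`c ν ^ (q - 1) J` is comparable with the logarithm of the top frequency `2 ^ J`, so it grows without
bound; shells with small local Reynolds number (sup norm at most `c ν 2 ^ j`) do not count, and a part
`w` of the velocity with a two-dimensional set of frequencies does not count either.

So at a blow-up time `T`, for every large `J` the integral over `(0, T)` of the maximum over
`θ J ≤ j ≤ J` of the numbers `(2 ^ (s j) (‖Δ_j u‖_∞ - c ν 2 ^ j)₊) ^ q` is more than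
`c ν ^ (q - 1) J` (the case `w = 0`, `Q = ∅`, `A = 0`).
-/

open MeasureTheory Set H459R3.NS Pool.Agent.W734.NS

set_option autoImplicit false

/-- Let `-1 < s < 1`, `q = 2 / (1 + s)`, `0 ≤ θ < 4 / 5` and `K ≥ 0`. There are integers `l ≥ 2`, `m`
and constants `c, C, κ > 0` such that the following holds for every viscosity `ν > 0` and every smooth
periodic solution `(u, P)` of the Navier-Stokes equations on `[0, T) × ℝ³`.

Let `J` be an integer with `2 ^ J ≥ C (1 + ‖Δ^l u(0)‖₂ / ν + ‖u(0)‖₂ / ν) ^ m`, let `A ≥ 0` with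
`A ‖u(0)‖₂² ≤ c ν² J`, and let `β ≥ 0` be a function with `∫₀ᵀ β^q ≤ c ν^(q-1) J`.
Suppose that for every time `t ∈ (0, T)` there is a smooth periodic field `w` whose frequencies lie in
a two-dimensional set (with constant `A`) and whose enstrophy is at most `K²` times that of `u t`,
such that every component of the smooth dyadic pieces `S (dl j ·)` of `u t - w` with
`θ J ≤ j ≤ J` has sup norm at most `c ν 2 ^ j + 2 ^ (- s j) β t`.
Then `‖Δ^l u(t)‖₂² < κ ν² (2 ^ J) ^ (4 l - 1)` for all `t ∈ [0, T)`, and `u` is bounded on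
`[0, T) × ℝ³`. -/
theorem Pool.Agent.Results.MP_6bf1e5_an.ZFrequencyWindows.result
    {s θ K : ℝ} (hs0 : -1 < s) (hs1 : s < 1) (hθ0 : 0 ≤ θ) (hθ1 : θ < 4 / 5) (hK : 0 ≤ K) :
    ∃ (l m : ℕ) (c C κ : ℝ), 2 ≤ l ∧ 0 < c ∧ 0 < C ∧ 0 < κ ∧ ∀ (ν T A : ℝ) (J : ℕ)
      (u : ℝ → V → V) (P : ℝ → V → ℝ) (β : ℝ → ℝ), 0 < ν → IsSol ν T u P → 0 ≤ A →
      C * (1 + Real.sqrt (hn l (u 0)) / ν + Real.sqrt (energy (u 0)) / ν) ^ m ≤ 2 ^ J →
      A * energy (u 0) ≤ c * (ν ^ 2 * J) →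
      (∀ t ∈ Ioo 0 T, 0 ≤ β t) → IntegrableOn (fun t => β t ^ (2 / (1 + s))) (Ioo 0 T) →
      ∫ t in Ioo 0 T, β t ^ (2 / (1 + s)) ≤ c * (ν ^ (2 / (1 + s) - 1) * J) →
      (∀ t ∈ Ioo 0 T, ∃ (w : V → V) (Q : Set K3), SPV w ∧ DimTwo A Q ∧
          (∀ i, ∀ k ∉ Q, fr (fun x => w x i) k = 0) ∧
          enstrophy w ≤ K ^ 2 * enstrophy (u t) ∧
          ∀ j : ℕ, θ * J ≤ j → j ≤ J → ∀ i x, ‖S (dl j (fr fun y => u t y i - w y i)) x‖
            ≤ c * (ν * 2 ^ j) + (2 : ℝ) ^ (-(s * j)) * β t) →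
      (∀ t ∈ Ico 0 T, hn l (u t) < κ * (ν ^ 2 * ((2 : ℝ) ^ J) ^ (4 * l - 1))) ∧
      ∃ R, ∀ t ∈ Ico 0 T, ∀ x i, |u t x i| ≤ R :=
  windows_theta hs0 hs1 hθ0 hθ1 hK
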